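import Pool.Agent.H87.HR.Loc
import Pool.Agent.H76.HR.Defs

/-!
The Ax-Kochen theorem for the smooth fibres of a flat proper morphism (MP_d037d4_ag).
-/

noncomputable section

namespace Pool.H87.HR

open CategoryTheory CategoryTheory.Limits AlgebraicGeometry Pool.H9.WMC Pool.H9.AK Pool.HR

/-- The points with smooth fibre. -/
def good {S X : Scheme.{0}} (f : X ⟶ S) [IsProper f] [LocallyOfFinitePresentation f] : S.Opens :=
  ⟨(f '' (f.smoothLocus : Set X)ᶜ)ᶜ, by
    rw [isOpen_compl_iff]
    exact f.isClosedMap _ f.smoothLocus.2.isClosed_compl⟩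

theorem smoothLocus_congr {X Y : Scheme.{0}} {f g : X ⟶ Y} (h : f = g)
    [LocallyOfFinitePresentation f] [LocallyOfFinitePresentation g] :
    f.smoothLocus = g.smoothLocus := by
  subst h
  rfl

theorem smooth_good {S X : Scheme.{0}} (f : X ⟶ S) [IsProper f] [LocallyOfFinitePresentation f] :
    Smooth (pullback.snd f (good f).ι) := by
  rw [← Scheme.Hom.smoothLocus_eq_top_iff, ← smoothLocus_comp _ (good f).ι]
  have h1 : (pullback.snd f (good f).ι ≫ (good f).ι) = pullback.fst f (good f).ι ≫ f :=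
    pullback.condition.symm
  have h2 := Scheme.Hom.preimage_smoothLocus_eq (pullback.fst f (good f).ι) f
  have h3 : pullback.fst f (good f).ι ⁻¹ᵁ f.smoothLocus = ⊤ := by
    ext z
    simp only [TopologicalSpace.Opens.coe_top, Set.mem_univ, iff_true]
    by_contra h4
    have h5 : f (pullback.fst f (good f).ι z) ∈ good f := by
      rw [← Scheme.Hom.comp_apply, pullback.condition, Scheme.Hom.comp_apply]
      exact (pullback.snd f (good f).ι z).2
    exact h5 ⟨_, h4, rfl⟩
  rw [smoothLocus_congr h1, ← h2, h3]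

theorem mem_good {S X : Scheme.{0}} (f : X ⟶ S) [IsProper f] [LocallyOfFinitePresentation f]
    [Flat f] {K : Type} [Field K] (s : Spec (CommRingCat.of K) ⟶ S)
    (h : Smooth (pullback.snd f s)) : s default ∈ good f := by
  rintro ⟨x, hx1, hx2⟩
  exact hx1 (mem_smoothLocus_field f s h x hx2)

/-- The Ax-Kochen theorem for all smooth fibres of a flat proper morphism. -/
theorem ak_flat {Ω : Type} [Field Ω] [CharZero Ω] [IsAlgClosed Ω] (T : Theory Ω)
    {S X : Scheme.{0}} (f : X ⟶ S) [Flat f] [IsProper f]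
    (g : S ⟶ Spec (CommRingCat.of ℤ)) [CompactSpace S] [LocallyOfFiniteType g] :
    ∃ B : ℕ, 0 < B ∧ ∀ (L : LF), CharZero L.K → ¬ ringChar L.k ∣ B →
      ∀ (s : Spec (CommRingCat.of L.K) ⟶ S) (h : Smooth (pullback.snd f s)),
      (∀ i : ℕ, (T.H L (fibre f s h) i).WM i) ∧
      ∃ (k : Type) (_ : Field k) (_ : Finite k) (s' : Spec (CommRingCat.of (LF.pow k).K) ⟶ S)
        (h' : Smooth (pullback.snd f s')),
        ringChar k = ringChar L.k ∧
        ∀ i : ℕ, FN.Sim (T.H L (fibre f s h) i) (T.H (LF.pow k) (fibre f s' h') i) := by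
  have hln : IsLocallyNoetherian S := LocallyOfFiniteType.isLocallyNoetherian g
  have hn : IsNoetherian S := {}
  have hsm : Smooth (pullback.snd f (good f).ι) := smooth_good f
  have hc : CompactSpace (good f : S.Opens) := isCompact_iff_compactSpace.1
    (TopologicalSpace.NoetherianSpace.isCompact _)
  obtain ⟨B, hB, h⟩ := tr_sch T (pullback.snd f (good f).ι) ((good f).ι ≫ g)
  refine ⟨B, hB, fun L h0 hp s hs => ?_⟩
  have h1 : CharZero L.O := by
    refine charZero_of_inj_zero fun n hn => ?_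
    have h2 : ((n : ℕ) : L.K) = 0 := by
      rw [← map_natCast (algebraMap L.O L.K), hn, map_zero]
    exact_mod_cast h2
  have h2 : IsUnit ((B : ℕ) : L.O) := by
    rw [isUnit_k, map_natCast]
    intro h3
    exact hp ((ringChar.spec L.k B).1 h3)
  obtain ⟨t, ht⟩ := lift_point (good f).ι s (by
    rw [Scheme.Opens.range_ι]
    exact mem_good f s hs)
  obtain ⟨k, hk1, hk2, s', h3, h4⟩ := h L t h1 h2
  subst ht
  have h5 : Smooth (pullback.snd f (s' ≫ (good f).ι)) := by
    have h6 := pullbackLeftPullbackSndIso_hom_snd f (good f).ι s'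
    have h7 : pullback.snd f (s' ≫ (good f).ι) =
        (pullbackLeftPullbackSndIso f (good f).ι s').inv ≫
          pullback.snd (pullback.snd f (good f).ι) s' := by
      rw [← h6, Iso.inv_hom_id_assoc]
    rw [h7]
    infer_instance
  have h8 : (fib (pullback.snd f (good f).ι) t).Iso (fibre f (t ≫ (good f).ι) hs) :=
    ⟨pullbackLeftPullbackSndIso f (good f).ι t, pullbackLeftPullbackSndIso_hom_snd f (good f).ι t⟩
  have h9 : (fib (pullback.snd f (good f).ι) s').Iso (fibre f (s' ≫ (good f).ι) h5) :=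
    ⟨pullbackLeftPullbackSndIso f (good f).ι s', pullbackLeftPullbackSndIso_hom_snd f (good f).ι s'⟩
  have h10 : ∀ i, FN.Sim (T.H L (fibre f (t ≫ (good f).ι) hs) i)
      (T.H (LF.pow k) (fibre f (s' ≫ (good f).ι) h5) i) := fun i =>
    ((T.iso _ _ _ h8.symm i).trans (h4 i)).trans (T.iso _ _ _ h9 i)
  refine ⟨fun i => ?_, k, hk1, hk2, s' ≫ (good f).ι, h5, h3, h10⟩
  refine (h10 i).wm L.one_lt_q (LF.pow k).one_lt_q (T.equal (LF.pow k) (ringChar k) ?_ ?_ _ i)
  · exact CharP.char_is_prime k (ringChar k)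
  · have h5 : ((ringChar k : ℕ) : PowerSeries k) = 0 := by
      rw [← map_natCast (PowerSeries.C (R := k)), ringChar.Nat.cast_ringChar, map_zero]
    exact h5

end Pool.H87.HR

end
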