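import Pool.Agent.H87.HR.Newton
import Pool.Agent.H76.HR.Star

/-!
Greenberg's strong approximation theorem with constant coefficients, uniform in the field
(MP_d037d4_ag).
-/

namespace Pool.H87.HR

open MvPolynomial

/-- The consequence of formal smoothness that Newton's method needs. -/
def StarStmt : Prop :=
  ∀ (n : ℕ) (I : Ideal (MvPolynomial (Fin n) ℤ)) [I.IsPrime],
    ∃ (p : ℕ) (h : MvPolynomial (Fin n) ℤ) (B : Fin n → MvPolynomial (Fin n) ℤ),
      (p = 0 ∨ p.Prime) ∧ (p : MvPolynomial (Fin n) ℤ) ∈ I ∧ h ∉ I ∧ (∀ j, B j ∈ I) ∧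
      ∀ a ∈ I, h * a - ∑ j, pderiv j a * B j ∈
        I ^ 2 + Ideal.span {(p : MvPolynomial (Fin n) ℤ)}

/-- Approximate solutions modulo `X ^ N` are congruent modulo `X ^ ν` to solutions. -/
def Appr {n : ℕ} (I : Ideal (MvPolynomial (Fin n) ℤ)) (ν : ℕ) : Prop :=
  ∃ N : ℕ, ∀ (k : Type) [Field k] (x : Fin n → PowerSeries k),
    (∀ a ∈ I, PowerSeries.X ^ N ∣ ev x a) →
      ∃ y : Fin n → PowerSeries k, (∀ a ∈ I, ev y a = 0) ∧ ∀ j, PowerSeries.X ^ ν ∣ y j - x j

theorem dvd_sup {n N : ℕ} {k : Type} [Field k] {I : Ideal (MvPolynomial (Fin n) ℤ)}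
    {g : MvPolynomial (Fin n) ℤ} {x : Fin n → PowerSeries k}
    (hx : ∀ a ∈ I, PowerSeries.X ^ N ∣ ev x a) (hg : PowerSeries.X ^ N ∣ ev x g) :
    ∀ a ∈ I ⊔ Ideal.span {g}, PowerSeries.X ^ N ∣ ev x a := by
  intro a ha
  obtain ⟨b, hb, c, hc, rfl⟩ := Submodule.mem_sup.1 ha
  obtain ⟨d, rfl⟩ := Ideal.mem_span_singleton.1 hc
  rw [map_add, map_mul]
  exact dvd_add (hx b hb) (hg.mul_right _)

theorem lt_sup {n : ℕ} {I : Ideal (MvPolynomial (Fin n) ℤ)} {g : MvPolynomial (Fin n) ℤ}
    (hg : g ∉ I) : I < I ⊔ Ideal.span {g} := by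
  refine lt_of_le_of_ne le_sup_left fun h => hg ?_
  rw [h]
  exact Ideal.mem_sup_right (Ideal.mem_span_singleton_self g)

/-- Greenberg's theorem. -/
theorem greenberg_of_star (star : StarStmt) {n : ℕ} (ν : ℕ)
    (I : Ideal (MvPolynomial (Fin n) ℤ)) : Appr I ν := by
  induction I using IsNoetherian.induction with
  | _ I ih =>
  by_cases hp : Ideal.IsPrime I
  · obtain ⟨p, h, B, hp0, hpI, hh, hB, hst⟩ := star n I
    obtain ⟨N', hN'⟩ := ih _ (lt_sup hh)
    refine ⟨2 * N' + 1 + ν, fun k _ x hx => ?_⟩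
    have hpk : (p : PowerSeries k) = 0 := by
      have h1 := hx _ hpI
      rw [map_natCast] at h1
      have h2 : PowerSeries.X ∣ (p : PowerSeries k) :=
        (dvd_pow_self _ (by omega)).trans h1
      have h3 : (p : k) = 0 := by
        have h4 := PowerSeries.X_dvd_iff.1 h2
        rwa [map_natCast] at h4
      rw [← map_natCast (PowerSeries.C (R := k)), h3, map_zero]
    by_cases h1 : PowerSeries.X ^ N' ∣ ev x h
    · obtain ⟨y, hy1, hy2⟩ := hN' k x (dvd_sup (fun a ha =>
        (pow_dvd_pow _ (by omega)).trans (hx a ha)) h1)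
      exact ⟨y, fun a ha => hy1 a (Ideal.mem_sup_left ha), hy2⟩
    · have h2 : ev x h ≠ 0 := fun h0 => h1 (by
        rw [h0]
        exact dvd_zero _)
      obtain ⟨w, u, h3⟩ := IsDiscreteValuationRing.eq_unit_mul_pow_irreducible h2
        (PowerSeries.X_irreducible (R := k))
      have hw : w < N' := by
        by_contra h4
        refine h1 ?_
        rw [h3]
        exact (pow_dvd_pow _ (not_lt.1 h4)).mul_left _
      obtain ⟨y, hy1, hy2⟩ := newton I p hpk h B hB (fun a ha => hst a ha)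
        (M := 2 * N' + 1 + ν) (w := w) (by omega) x hx ⟨u, u.isUnit, by rw [h3, mul_comm]⟩
      exact ⟨y, hy1, fun j => (pow_dvd_pow _ (by omega)).trans (hy2 j)⟩
  · by_cases ht : I = ⊤
    · refine ⟨1, fun k _ x hx => ?_⟩
      exfalso
      have h1 := hx 1 (by rw [ht]; trivial)
      rw [map_one, pow_one] at h1
      exact (PowerSeries.X_irreducible (R := k)).not_isUnit (isUnit_of_dvd_one h1)
    · rw [Ideal.isPrime_iff] at hp
      push Not at hp
      obtain ⟨a, b, hab, ha, hb⟩ := hp ht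
      obtain ⟨Na, hNa⟩ := ih _ (lt_sup ha)
      obtain ⟨Nb, hNb⟩ := ih _ (lt_sup hb)
      refine ⟨Na + Nb, fun k _ x hx => ?_⟩
      have h1 := hx _ hab
      rw [map_mul] at h1
      have h2 : PowerSeries.X ^ Na ∣ ev x a ∨ PowerSeries.X ^ Nb ∣ ev x b := by
        by_contra h3
        push Not at h3
        obtain ⟨h4, h5⟩ := h3
        have ha0 : ev x a ≠ 0 := fun h0 => h4 (by
          rw [h0]
          exact dvd_zero _)
        have hb0 : ev x b ≠ 0 := fun h0 => h5 (by
          rw [h0]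
          exact dvd_zero _)
        obtain ⟨i, u, h6⟩ := IsDiscreteValuationRing.eq_unit_mul_pow_irreducible ha0
          (PowerSeries.X_irreducible (R := k))
        obtain ⟨j, v, h7⟩ := IsDiscreteValuationRing.eq_unit_mul_pow_irreducible hb0
          (PowerSeries.X_irreducible (R := k))
        have hi : i < Na := by
          by_contra h8
          refine h4 ?_
          rw [h6]
          exact (pow_dvd_pow _ (not_lt.1 h8)).mul_left _
        have hj : j < Nb := by
          by_contra h8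
          refine h5 ?_
          rw [h7]
          exact (pow_dvd_pow _ (not_lt.1 h8)).mul_left _
        rw [h6, h7] at h1
        have h9 : (PowerSeries.X : PowerSeries k) ^ (i + j + 1) ∣
            PowerSeries.X ^ (i + j) * ((u * v : (PowerSeries k)ˣ) : PowerSeries k) := by
          refine (pow_dvd_pow _ (show i + j + 1 ≤ Na + Nb by omega)).trans (h1.trans ?_)
          rw [Units.val_mul, pow_add]
          exact Dvd.intro 1 (by ring)
        rw [pow_succ] at h9
        have h10 : PowerSeries.X ∣ ((u * v : (PowerSeries k)ˣ) : PowerSeries k) :=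
          (mul_dvd_mul_iff_left (pow_ne_zero (i + j) (PowerSeries.X_ne_zero (R := k)))).1 h9
        exact (PowerSeries.X_irreducible (R := k)).not_isUnit
          (isUnit_of_dvd_unit h10 (Units.isUnit (u * v)))
      rcases h2 with h2 | h2
      · obtain ⟨y, hy1, hy2⟩ := hNa k x (dvd_sup (fun c hc =>
          (pow_dvd_pow _ (by omega)).trans (hx c hc)) h2)
        exact ⟨y, fun c hc => hy1 c (Ideal.mem_sup_left hc), hy2⟩
      · obtain ⟨y, hy1, hy2⟩ := hNb k x (dvd_sup (fun c hc =>
          (pow_dvd_pow _ (by omega)).trans (hx c hc)) h2)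
        exact ⟨y, fun c hc => hy1 c (Ideal.mem_sup_left hc), hy2⟩

/-- Greenberg's theorem for the points of a ring of finite type over the integers. -/
theorem greenberg_ring (star : StarStmt) (A : Type) [CommRing A] [Algebra.FiniteType ℤ A]
    (ν : ℕ) : ∃ N : ℕ, ∀ (k : Type) [Field k] (Q : Type) [CommRing Q] (θ : PowerSeries k →+* Q),
      Function.Surjective θ → RingHom.ker θ = Ideal.span {PowerSeries.X ^ N} →
      ∀ x : A →+* Q, ∃ y : A →+* PowerSeries k,
        ∀ a, θ (y a) - x a ∈ Ideal.span {θ (PowerSeries.X ^ ν)} := by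
  obtain ⟨n, π, hπ⟩ := Algebra.FiniteType.iff_quotient_mvPolynomial''.1
    (inferInstance : Algebra.FiniteType ℤ A)
  obtain ⟨N, hN⟩ := greenberg_of_star star ν (RingHom.ker π.toRingHom)
  refine ⟨N, fun k _ Q _ θ hθ hker x => ?_⟩
  have h1 : ∀ j : Fin n, ∃ ξ, θ ξ = x (π (X j)) := fun j => hθ _
  choose ξ hξ using h1
  have h2 : ∀ f, θ (ev ξ f) = x (π f) := by
    intro f
    have h3 : θ.comp (ev ξ).toRingHom = x.comp π.toRingHom := by
      apply MvPolynomial.ringHom_ext
      · intro z
        simp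
      · intro j
        simpa using hξ j
    exact congrArg (fun g => g f) h3
  obtain ⟨y, hy1, hy2⟩ := hN k ξ (fun a ha => by
    rw [← Ideal.mem_span_singleton, ← hker, RingHom.mem_ker, h2]
    have h4 : π a = 0 := ha
    rw [h4, map_zero])
  let g : A →+* PowerSeries k := (π.toRingHom).liftOfSurjective hπ ⟨(ev y).toRingHom, by
    intro a ha
    exact hy1 a ha⟩
  have hg : ∀ f, g (π f) = ev y f := fun f =>
    RingHom.liftOfRightInverse_comp_apply _ _ _ _ _
  refine ⟨g, fun a => ?_⟩
  obtain ⟨f, rfl⟩ := hπ a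
  rw [hg, ← h2, ← map_sub]
  obtain ⟨r, hr⟩ := ev_congr (e := ν) ξ y hy2 f
  rw [hr, map_mul]
  exact Ideal.mul_mem_right _ _ (Ideal.mem_span_singleton_self _)

theorem starStmt : StarStmt := fun _ I _ => Pool.HR.star I

/-- Greenberg's strong approximation theorem with constant coefficients, uniform in the field:
for a ring `A` of finite type over `ℤ` and `ν` there is `N` such that every point of `A` with values
in `k[[X]] / X ^ N`, `k` any field, is congruent modulo `X ^ ν` to a point with values in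
`k[[X]]`. -/
theorem greenberg (A : Type) [CommRing A] [Algebra.FiniteType ℤ A] (ν : ℕ) :
    ∃ N : ℕ, ∀ (k : Type) [Field k] (Q : Type) [CommRing Q] (θ : PowerSeries k →+* Q),
      Function.Surjective θ → RingHom.ker θ = Ideal.span {PowerSeries.X ^ N} →
      ∀ x : A →+* Q, ∃ y : A →+* PowerSeries k,
        ∀ a, θ (y a) - x a ∈ Ideal.span {θ (PowerSeries.X ^ ν)} :=
  greenberg_ring starStmt A ν

end Pool.H87.HR
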