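import Mathlib

/-!
The smooth locus of a flat morphism contains the smooth fibres (MP_d037d4_ag).
-/

noncomputable section

namespace Pool.H87.HR

open CategoryTheory CategoryTheory.Limits AlgebraicGeometry

variable {X Y Z : Scheme.{0}}

/-- The smooth locus does not change under open immersions of the target. -/
theorem smoothLocus_comp (f : X ⟶ Y) (j : Y ⟶ Z) [IsOpenImmersion j]
    [LocallyOfFinitePresentation f] :
    (f ≫ j).smoothLocus = f.smoothLocus := by
  ext x
  refine Iff.trans ?_ (RingHom.FormallySmooth.respectsIso.cancel_left_isIso (j.stalkMap (f x)) _)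
  rw [← CommRingCat.hom_comp, ← Scheme.Hom.stalkMap_comp]
  rfl

set_option backward.isDefEq.respectTransparency false in
theorem mem_smoothLocus_spec {R S : CommRingCat.{0}} (φ : R ⟶ S)
    [h1 : LocallyOfFinitePresentation (Spec.map φ)] [h2 : Flat (Spec.map φ)] (p : Spec R)
    (h : Smooth ((Spec.map φ).fiberToSpecResidueField p)) (x : Spec S)
    (hx : Spec.map φ x = p) : x ∈ (Spec.map φ).smoothLocus := by
  have h3 := (HasRingHomProperty.Spec_iff (P := @LocallyOfFinitePresentation)).1 h1
  have h4 := (HasRingHomProperty.Spec_iff (P := @Flat)).1 h2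
  algebraize [φ.hom]
  have h5 : x.asIdeal.LiesOver p.asIdeal := ⟨by
    rw [← hx]
    rfl⟩
  have h6 : Algebra.FormallySmooth p.asIdeal.ResidueField (p.asIdeal.Fiber S) := by
    rw [← RingHom.formallySmooth_algebraMap]
    refine RingHom.Smooth.formallySmooth ?_
    rw [← CommRingCat.hom_ofHom (algebraMap p.asIdeal.ResidueField (p.asIdeal.Fiber ↑S)),
      ← HasRingHomProperty.Spec_iff (P := @Smooth),
      ← MorphismProperty.arrow_mk_iso_iff (P := @Smooth) (Spec.fiberToSpecResidueFieldIso R S p)]
    exact h
  have h7 : Algebra.IsSmoothAt R x.asIdeal :=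
    Algebra.IsSmoothAt.of_formallySmooth_fiber p.asIdeal x.asIdeal
  obtain ⟨r, hr, hs⟩ := Algebra.IsSmoothAt.exists_notMem_smooth R x.asIdeal
  let j : Spec (CommRingCat.of (Localization.Away r)) ⟶ Spec S :=
    Spec.map (CommRingCat.ofHom (algebraMap S (Localization.Away r)))
  have hj : IsOpenImmersion j := inferInstance
  have h8 : Smooth (j ≫ Spec.map φ) := by
    have h9 : j ≫ Spec.map φ =
        Spec.map (CommRingCat.ofHom (algebraMap R (Localization.Away r))) := by
      rw [← Spec.map_comp]
      rfl
    rw [h9, HasRingHomProperty.Spec_iff (P := @Smooth)]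
    exact RingHom.smooth_algebraMap.2 hs
  obtain ⟨x', rfl⟩ : x ∈ Set.range j := by
    have h10 := PrimeSpectrum.localization_away_comap_range (Localization.Away r) r
    have h11 : x ∈ (PrimeSpectrum.basicOpen r : Set (PrimeSpectrum S)) := hr
    rw [← h10] at h11
    exact h11
  have h12 := Scheme.Hom.preimage_smoothLocus_eq j (Spec.map φ)
  rw [Scheme.Hom.smoothLocus_eq_top (j ≫ Spec.map φ)] at h12
  have h13 : x' ∈ j ⁻¹ᵁ (Spec.map φ).smoothLocus := by
    rw [h12]
    trivial
  exact h13

set_option backward.isDefEq.respectTransparency false in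
/-- Fibres of open subschemes of the source. -/
theorem smooth_fiber_comp (i : Z ⟶ X) [IsOpenImmersion i] (f : X ⟶ Y) (y : Y)
    (h : Smooth (f.fiberToSpecResidueField y)) :
    Smooth ((i ≫ f).fiberToSpecResidueField y) := by
  have h1 : Smooth (pullback.snd f (Y.fromSpecResidueField y)) := h
  rw [Scheme.Hom.fiberToSpecResidueField, ← pullbackRightPullbackFstIso_inv_snd_snd]
  infer_instance

set_option backward.isDefEq.respectTransparency false in
/-- A flat morphism is smooth at the points of a smooth fibre. -/
theorem mem_smoothLocus (f : X ⟶ Y) [LocallyOfFinitePresentation f] [Flat f] (y : Y)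
    (h : Smooth (f.fiberToSpecResidueField y)) (x : X) (hx : f x = y) : x ∈ f.smoothLocus := by
  wlog hY : ∃ R, Y = Spec R generalizing X Y
  · obtain ⟨i, y', hy'⟩ := Y.affineCover.exists_eq y
    let j := Y.affineCover.f i
    obtain ⟨z, hz1, hz2⟩ := Scheme.Pullback.exists_preimage_pullback (f := f) (g := j) x y'
      (by rw [hx, hy'])
    have h1 : Smooth ((pullback.snd f j).fiberToSpecResidueField y') := by
      apply MorphismProperty.of_isPullback
      · exact isPullback_fiberToSpecResidueField_of_isPullback (IsPullback.of_hasPullback f j) y'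
      · have h2 : j y' = y := hy'
        rw [h2]
        exact h
    have h3 := this (pullback.snd f j) y' h1 z hz2 ⟨_, rfl⟩
    rw [← smoothLocus_comp (pullback.snd f j) j] at h3
    have h4 : (pullback.snd f j ≫ j) = pullback.fst f j ≫ f := pullback.condition.symm
    have h5 := Scheme.Hom.preimage_smoothLocus_eq (pullback.fst f j) f
    have h6 : z ∈ (pullback.fst f j ≫ f).smoothLocus := by
      convert h3 using 2
      exact h4.symm
    rw [← h5] at h6
    rw [← hz1]
    exact h6
  obtain ⟨R, rfl⟩ := hY
  wlog hX : ∃ S, X = Spec S generalizing X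
  · obtain ⟨i, x', hx'⟩ := X.affineCover.exists_eq x
    let j := X.affineCover.f i
    have h1 := this x' (j ≫ f) (smooth_fiber_comp j f y h) (by
      rw [Scheme.Hom.comp_apply]
      have h2 : j x' = x := hx'
      rw [h2, hx]) ⟨_, rfl⟩
    rw [← Scheme.Hom.preimage_smoothLocus_eq] at h1
    have h2 : j x' = x := hx'
    rw [← h2]
    exact h1
  obtain ⟨S, rfl⟩ := hX
  obtain ⟨φ, rfl⟩ := Spec.map_surjective f
  exact mem_smoothLocus_spec φ y h x hx

theorem smooth_fiber_field (f : X ⟶ Y) {K : Type} [Field K]
    (s : Spec (CommRingCat.of K) ⟶ Y) (h : Smooth (pullback.snd f s)) :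
    Smooth (f.fiberToSpecResidueField (s default)) := by
  have hd : (default : Spec (CommRingCat.of K)) = IsLocalRing.closedPoint K :=
    Subsingleton.elim (α := PrimeSpectrum K) _ _
  rw [hd]
  let r := Y.fromSpecResidueField (s (IsLocalRing.closedPoint K))
  let t : Spec (CommRingCat.of K) ⟶ Spec (Y.residueField (s (IsLocalRing.closedPoint K))) :=
    Spec.map (Y.descResidueField (Scheme.stalkClosedPointTo s))
  have hs : t ≫ r = s := Scheme.descResidueField_stalkClosedPointTo_fromSpecResidueField K Y s
  have h1 : Smooth (pullback.snd f (t ≫ r)) := by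
    rw [hs]
    exact h
  have h2 : Smooth (pullback.snd (pullback.snd f r) t) := by
    rw [← pullbackLeftPullbackSndIso_hom_snd]
    infer_instance
  have h3 : Surjective t := ⟨fun z => ⟨default, Subsingleton.elim (α := PrimeSpectrum
    (Y.residueField (s (IsLocalRing.closedPoint K)))) _ _⟩⟩
  have h4 : Flat t := by
    rw [HasRingHomProperty.Spec_iff (P := @Flat)]
    algebraize [(Y.descResidueField (Scheme.stalkClosedPointTo s)).hom]
    exact (inferInstance : Module.Flat (Y.residueField (s (IsLocalRing.closedPoint K))) K)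
  exact MorphismProperty.of_pullback_snd_of_descendsAlong
    (P := @Smooth) (Q := @Surjective ⊓ @Flat ⊓ @QuasiCompact) (f := pullback.snd f r) (g := t)
    ⟨⟨h3, h4⟩, inferInstance⟩ h2

/-- The same for a fibre over any field. -/
theorem mem_smoothLocus_field (f : X ⟶ Y) [LocallyOfFinitePresentation f] [Flat f] {K : Type}
    [Field K] (s : Spec (CommRingCat.of K) ⟶ Y) (h : Smooth (pullback.snd f s)) (x : X)
    (hx : f x = s default) : x ∈ f.smoothLocus :=
  mem_smoothLocus f (s default) (smooth_fiber_field f s h) x hx

end Pool.H87.HR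

end
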