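import Mathlib

/-!
Newton approximation over power series rings, uniform in the field (MP_d037d4_ag).
-/

namespace Pool.H87.HR

open MvPolynomial

variable {n : ℕ} {k : Type} [Field k]

/-- Evaluation at `x`. -/
noncomputable abbrev ev (x : Fin n → PowerSeries k) : MvPolynomial (Fin n) ℤ →ₐ[ℤ] PowerSeries k :=
  aeval x

/-- Taylor's formula. -/
theorem taylor {e : ℕ} (x c : Fin n → PowerSeries k) (hc : ∀ j, PowerSeries.X ^ e ∣ c j)
    (f : MvPolynomial (Fin n) ℤ) :
    PowerSeries.X ^ (2 * e) ∣ ev (x - c) f - ev x f + ∑ j, ev x (pderiv j f) * c j := by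
  have hc2 : ∀ i j, PowerSeries.X ^ (2 * e) ∣ c i * c j := fun i j => by
    rw [two_mul, pow_add]
    exact mul_dvd_mul (hc i) (hc j)
  induction f using MvPolynomial.induction_on with
  | C z => simp
  | add f g hf hg =>
    have h : ev (x - c) (f + g) - ev x (f + g) + ∑ j, ev x (pderiv j (f + g)) * c j =
        (ev (x - c) f - ev x f + ∑ j, ev x (pderiv j f) * c j) +
        (ev (x - c) g - ev x g + ∑ j, ev x (pderiv j g) * c j) := by
      simp only [map_add, add_mul, Finset.sum_add_distrib]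
      ring
    rw [h]
    exact dvd_add hf hg
  | mul_X f i hf =>
    obtain ⟨R, hR⟩ := hf
    have h1 : ∑ j, ev x (pderiv j (f * X i)) * c j =
        (∑ j, ev x (pderiv j f) * c j) * x i + ev x f * c i := by
      have h2 : ∀ j, ev x (pderiv j (f * X i)) * c j =
          (ev x (pderiv j f) * c j) * x i + (if j = i then ev x f * c i else 0) := by
        intro j
        rw [pderiv_mul, pderiv_X]
        by_cases hj : j = i
        · subst hj
          simp
          ring
        · simp [hj]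
          ring
      simp only [h2, Finset.sum_add_distrib, ← Finset.sum_mul, Finset.sum_ite_eq',
        Finset.mem_univ, if_true]
    have h4 : ev (x - c) (f * X i) - ev x (f * X i) + ∑ j, ev x (pderiv j (f * X i)) * c j =
        (ev (x - c) f - ev x f + ∑ j, ev x (pderiv j f) * c j) * (x i - c i) +
        ∑ j, ev x (pderiv j f) * (c j * c i) := by
      rw [h1]
      have h5 : ∑ j, ev x (pderiv j f) * (c j * c i) = (∑ j, ev x (pderiv j f) * c j) * c i := by
        rw [Finset.sum_mul]
        exact Finset.sum_congr rfl fun j _ => by ring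
      rw [h5]
      simp only [map_mul, ev, aeval_X, Pi.sub_apply]
      ring
    rw [h4]
    refine dvd_add ?_ (Finset.dvd_sum fun j _ => (hc2 j i).mul_left _)
    rw [hR]
    exact Dvd.intro (R * (x i - c i)) (by ring)

/-- Congruent points. -/
theorem ev_congr {e : ℕ} (x y : Fin n → PowerSeries k)
    (h : ∀ j, PowerSeries.X ^ e ∣ y j - x j) (f : MvPolynomial (Fin n) ℤ) :
    PowerSeries.X ^ e ∣ ev y f - ev x f := by
  induction f using MvPolynomial.induction_on with
  | C z => simp
  | add f g hf hg =>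
    have : ev y (f + g) - ev x (f + g) = (ev y f - ev x f) + (ev y g - ev x g) := by
      simp only [map_add]
      ring
    rw [this]
    exact dvd_add hf hg
  | mul_X f i hf =>
    have : ev y (f * X i) - ev x (f * X i) = (ev y f - ev x f) * y i + ev x f * (y i - x i) := by
      simp only [map_mul, ev, aeval_X]
      ring
    rw [this]
    exact dvd_add (hf.mul_right _) ((h i).mul_left _)

/-- One step of Newton's method. -/
theorem newton_step (I : Ideal (MvPolynomial (Fin n) ℤ)) (p : ℕ) (hp : (p : PowerSeries k) = 0)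
    (h : MvPolynomial (Fin n) ℤ) (B : Fin n → MvPolynomial (Fin n) ℤ) (hB : ∀ j, B j ∈ I)
    (hstar : ∀ a ∈ I, h * a - ∑ j, pderiv j a * B j ∈ I ^ 2 ⊔ Ideal.span {(p : MvPolynomial (Fin n) ℤ)})
    {M w : ℕ} (hM : 2 * w < M) (x : Fin n → PowerSeries k)
    (hx : ∀ a ∈ I, PowerSeries.X ^ M ∣ ev x a) {u : PowerSeries k} (hu : IsUnit u)
    (hh : ev x h = PowerSeries.X ^ w * u) :
    ∃ y : Fin n → PowerSeries k, (∀ a ∈ I, PowerSeries.X ^ (M + 1) ∣ ev y a) ∧
      (∃ u', IsUnit u' ∧ ev y h = PowerSeries.X ^ w * u') ∧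
      ∀ j, PowerSeries.X ^ (M - w) ∣ y j - x j := by
  obtain ⟨v, huv⟩ := isUnit_iff_exists_inv.1 hu
  have h1 : ∀ j, ∃ b, ev x (B j) = PowerSeries.X ^ M * b := fun j => hx _ (hB j)
  choose b hb using h1
  let c : Fin n → PowerSeries k := fun j => PowerSeries.X ^ (M - w) * (b j * v)
  have hc : ∀ j, PowerSeries.X ^ (M - w) ∣ c j := fun j => Dvd.intro _ rfl
  have hcB : ∀ j, ev x h * c j = ev x (B j) := by
    intro j
    rw [hh, hb]
    have h2 : PowerSeries.X ^ M = (PowerSeries.X : PowerSeries k) ^ w * PowerSeries.X ^ (M - w) := by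
      rw [← pow_add]
      congr 1
      omega
    rw [h2]
    calc PowerSeries.X ^ w * u * c j
        = PowerSeries.X ^ w * PowerSeries.X ^ (M - w) * b j * (u * v) := by
          simp only [c]
          ring
      _ = _ := by rw [huv, mul_one]
  have hsub : ∀ j, (x - c) j - x j = -(c j) := fun j => by
    rw [Pi.sub_apply]
    ring
  refine ⟨x - c, ?_, ?_, fun j => ?_⟩
  · intro a ha
    -- elements of `I ^ 2 + (p)`
    have hI2 : ∀ z ∈ I ^ 2 ⊔ Ideal.span {(p : MvPolynomial (Fin n) ℤ)},
        PowerSeries.X ^ (2 * M) ∣ ev x z := by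
      intro z hz
      obtain ⟨z1, hz1, z2, hz2, rfl⟩ := Submodule.mem_sup.1 hz
      obtain ⟨t, rfl⟩ := Ideal.mem_span_singleton.1 hz2
      have h4 : ev x ((p : MvPolynomial (Fin n) ℤ) * t) = 0 := by
        rw [map_mul, map_natCast, hp, zero_mul]
      rw [map_add, h4, add_zero]
      have h5 : I ^ 2 ≤ (Ideal.span {(PowerSeries.X : PowerSeries k) ^ (2 * M)}).comap
          (ev x).toRingHom := by
        rw [pow_two, Ideal.mul_le]
        intro r hr s hs
        rw [Ideal.mem_comap, Ideal.mem_span_singleton]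
        have h6 := mul_dvd_mul (hx r hr) (hx s hs)
        rw [← pow_add, ← two_mul] at h6
        simpa using h6
      have h7 := h5 hz1
      rw [Ideal.mem_comap, Ideal.mem_span_singleton] at h7
      exact h7
    obtain ⟨r1, hr1⟩ := hI2 _ (hstar a ha)
    obtain ⟨r2, hr2⟩ := taylor x c hc a
    rw [map_sub, map_mul, map_sum] at hr1
    have h8 : ∑ j, ev x (pderiv j a * B j) = ev x h * ∑ j, ev x (pderiv j a) * c j := by
      rw [Finset.mul_sum]
      refine Finset.sum_congr rfl fun j _ => ?_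
      rw [map_mul, ← hcB j]
      ring
    rw [h8] at hr1
    have h9 : ev x h * ev (x - c) a =
        PowerSeries.X ^ (2 * M) * r1 + ev x h * (PowerSeries.X ^ (2 * (M - w)) * r2) := by
      rw [← hr1, ← hr2]
      ring
    have h10 : PowerSeries.X ^ w * ev (x - c) a =
        PowerSeries.X ^ w * (PowerSeries.X ^ (M + 1) * (PowerSeries.X ^ (M - w - 1) * r1 * v +
          PowerSeries.X ^ (M - 2 * w - 1) * r2)) := by
      have e1 : (PowerSeries.X : PowerSeries k) ^ (2 * M) =
          PowerSeries.X ^ w * (PowerSeries.X ^ (M + 1) * PowerSeries.X ^ (M - w - 1)) := by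
        rw [← pow_add, ← pow_add]
        congr 1
        omega
      have e2 : (PowerSeries.X : PowerSeries k) ^ (2 * (M - w)) =
          PowerSeries.X ^ (M + 1) * PowerSeries.X ^ (M - 2 * w - 1) := by
        rw [← pow_add]
        congr 1
        omega
      rw [hh, e1, e2] at h9
      calc PowerSeries.X ^ w * ev (x - c) a
          = PowerSeries.X ^ w * ev (x - c) a * (u * v) := by rw [huv, mul_one]
        _ = (PowerSeries.X ^ w * u * ev (x - c) a) * v := by ring
        _ = (PowerSeries.X ^ w * (PowerSeries.X ^ (M + 1) * PowerSeries.X ^ (M - w - 1)) * r1 +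
          PowerSeries.X ^ w * u * (PowerSeries.X ^ (M + 1) * PowerSeries.X ^ (M - 2 * w - 1) * r2))
            * v := by rw [h9]
        _ = PowerSeries.X ^ w * (PowerSeries.X ^ (M + 1) * (PowerSeries.X ^ (M - w - 1) * r1 * v +
          PowerSeries.X ^ (M - 2 * w - 1) * r2 * (u * v))) := by ring
        _ = _ := by rw [huv, mul_one]
    have h12 := mul_left_cancel₀ (pow_ne_zero w (PowerSeries.X_ne_zero (R := k))) h10
    rw [h12]
    exact Dvd.intro _ rfl
  · obtain ⟨r, hr⟩ := ev_congr (e := M - w) x (x - c) (fun j => by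
      rw [hsub]
      exact (hc j).neg_right) h
    have h2 : (PowerSeries.X : PowerSeries k) ^ (M - w) =
        PowerSeries.X ^ w * (PowerSeries.X * PowerSeries.X ^ (M - 2 * w - 1)) := by
      rw [← pow_succ', ← pow_add]
      congr 1
      omega
    refine ⟨u + PowerSeries.X * (PowerSeries.X ^ (M - 2 * w - 1) * r), ?_, ?_⟩
    · rw [PowerSeries.isUnit_iff_constantCoeff]
      rw [map_add, map_mul, PowerSeries.constantCoeff_X, zero_mul, add_zero]
      exact hu.map PowerSeries.constantCoeff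
    · rw [sub_eq_iff_eq_add] at hr
      rw [hr, hh, h2]
      ring
  · rw [hsub]
    exact (hc j).neg_right

/-- Newton's method. -/
theorem newton (I : Ideal (MvPolynomial (Fin n) ℤ)) (p : ℕ) (hp : (p : PowerSeries k) = 0)
    (h : MvPolynomial (Fin n) ℤ) (B : Fin n → MvPolynomial (Fin n) ℤ) (hB : ∀ j, B j ∈ I)
    (hstar : ∀ a ∈ I, h * a - ∑ j, pderiv j a * B j ∈ I ^ 2 ⊔ Ideal.span {(p : MvPolynomial (Fin n) ℤ)})
    {M w : ℕ} (hM : 2 * w < M) (x : Fin n → PowerSeries k)
    (hx : ∀ a ∈ I, PowerSeries.X ^ M ∣ ev x a)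
    (hh : ∃ u, IsUnit u ∧ ev x h = PowerSeries.X ^ w * u) :
    ∃ y : Fin n → PowerSeries k, (∀ a ∈ I, ev y a = 0) ∧
      ∀ j, PowerSeries.X ^ (M - w) ∣ y j - x j := by
  have step : ∀ (m : ℕ) (s : Fin n → PowerSeries k), ∃ y : Fin n → PowerSeries k,
      ((∀ a ∈ I, PowerSeries.X ^ (M + m) ∣ ev s a) ∧
        (∃ u, IsUnit u ∧ ev s h = PowerSeries.X ^ w * u)) →
      ((∀ a ∈ I, PowerSeries.X ^ (M + (m + 1)) ∣ ev y a) ∧
        (∃ u, IsUnit u ∧ ev y h = PowerSeries.X ^ w * u)) ∧
      ∀ j, PowerSeries.X ^ (M + m - w) ∣ y j - s j := by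
    intro m s
    by_cases hs : (∀ a ∈ I, PowerSeries.X ^ (M + m) ∣ ev s a) ∧
        (∃ u, IsUnit u ∧ ev s h = PowerSeries.X ^ w * u)
    · obtain ⟨h1, u, hu, h2⟩ := hs
      obtain ⟨y, h3, h4, h5⟩ := newton_step I p hp h B hB hstar (M := M + m) (w := w) (by omega) s
        h1 hu h2
      exact ⟨y, fun _ => ⟨⟨h3, h4⟩, h5⟩⟩
    · exact ⟨s, fun h => absurd h hs⟩
  choose F hF using step
  let s : ℕ → Fin n → PowerSeries k := fun m => Nat.rec x (fun m s => F m s) m
  have hs0 : s 0 = x := rfl
  have hs1 : ∀ m, s (m + 1) = F m (s m) := fun m => rfl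
  have hs : ∀ m, (∀ a ∈ I, PowerSeries.X ^ (M + m) ∣ ev (s m) a) ∧
        (∃ u, IsUnit u ∧ ev (s m) h = PowerSeries.X ^ w * u) := by
    intro m
    induction m with
    | zero => exact ⟨hx, hh⟩
    | succ m ih => exact (hF m (s m) ih).1
  have hd : ∀ m j, PowerSeries.X ^ (M + m - w) ∣ s (m + 1) j - s m j := fun m =>
    (hF m (s m) (hs m)).2
  have hd2 : ∀ m l j, PowerSeries.X ^ (M + m - w) ∣ s (m + l) j - s m j := by
    intro m l j
    induction l with
    | zero => simp
    | succ l ih =>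
      have h1 : s (m + (l + 1)) j - s m j = (s (m + l + 1) j - s (m + l) j) +
          (s (m + l) j - s m j) := by
        rw [← add_assoc]
        ring
      rw [h1]
      refine dvd_add ((pow_dvd_pow _ ?_).trans (hd (m + l) j)) ih
      omega
  have hco : ∀ m m' j i, m ≤ m' → i < M + m - w →
      PowerSeries.coeff i (s m' j) = PowerSeries.coeff i (s m j) := by
    intro m m' j i hm hi
    obtain ⟨l, rfl⟩ := Nat.exists_eq_add_of_le hm
    have h1 := PowerSeries.X_pow_dvd_iff.1 (hd2 m l j) i hi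
    rw [map_sub, sub_eq_zero] at h1
    exact h1
  let y : Fin n → PowerSeries k := fun j => PowerSeries.mk fun i =>
    PowerSeries.coeff i (s (i + 1) j)
  have hy : ∀ m j, PowerSeries.X ^ (M + m - w) ∣ y j - s m j := by
    intro m j
    rw [PowerSeries.X_pow_dvd_iff]
    intro i hi
    rw [map_sub, PowerSeries.coeff_mk, sub_eq_zero]
    rcases le_total m (i + 1) with h1 | h1
    · exact hco m (i + 1) j i h1 hi
    · exact (hco (i + 1) m j i h1 (by omega)).symm
  refine ⟨y, fun a ha => ?_, fun j => hy 0 j⟩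
  ext i
  have h1 := ev_congr (e := M + (i + 1) - w) (s (i + 1)) y (hy (i + 1)) a
  have h2 := (hs (i + 1)).1 a ha
  have h3 := PowerSeries.X_pow_dvd_iff.1 h1 i (by omega)
  have h4 := PowerSeries.X_pow_dvd_iff.1 h2 i (by omega)
  rw [map_sub, h4, sub_zero] at h3
  rw [h3, map_zero]

end Pool.H87.HR
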